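import Mathlib

namespace Pool.Agent.Results.MP_3b2c1c_al.NotEq

/-- A quasi-identity of groups: `r₁ = 1 ∧ … ∧ r_k = 1 → u = 1` in `n` variables. -/
structure QI where
  n : ℕ
  hyps : List (FreeGroup (Fin n))
  concl : FreeGroup (Fin n)

/-- `G` satisfies all quasi-identities of `S`. -/
def Mod (S : Set QI) (G : Type) [Group G] : Prop :=
  ∀ q ∈ S, ∀ x : Fin q.n → G, (∀ r ∈ q.hyps, FreeGroup.lift x r = 1) → FreeGroup.lift x q.concl = 1

/-- The quasivariety defined by `S` is extension-closed. -/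
def ExtClosed (S : Set QI) : Prop :=
  ∀ (H : Type) [Group H] (N : Subgroup H) [N.Normal], Mod S N → Mod S (H ⧸ N) → Mod S H

/-- `G` lies in every extension-closed quasivariety containing `ℤ`. -/
def InQ (G : Type) [Group G] : Prop :=
  ∀ S : Set QI, Mod S (Multiplicative ℤ) → ExtClosed S → Mod S G

/-- Every nontrivial finitely generated subgroup maps onto `ℤ`. -/
def LocInd (G : Type) [Group G] : Prop :=
  ∀ H : Subgroup G, H.FG → H ≠ ⊥ → ∃ f : H →* Multiplicative ℤ, Function.Surjective f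

section
variable {G : Type} [Group G]

/-- `xₙ₊₁ = a⁻ⁿ b aⁿ` -/
def x (a b : G) : ℕ → G
  | 0 => a
  | n + 1 => (a ^ n)⁻¹ * b * a ^ n

/-- The two relations of Thompson's group `F`. -/
def Rel (a b : G) : Prop := x a b 2 * b = b * x a b 3 ∧ x a b 3 * b = b * x a b 4

variable {a b : G}

theorem x0 (n : ℕ) : x a b (n + 1) * a = a * x a b (n + 2) := by
  simp only [x]; group

theorem up {i j : ℕ} (h : x a b (j + 1) * x a b (i + 1) = x a b (i + 1) * x a b (j + 2)) :
    x a b (j + 2) * x a b (i + 2) = x a b (i + 2) * x a b (j + 3) := by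
  have e : ∀ n, x a b (n + 2) = a⁻¹ * x a b (n + 1) * a := fun n => by rw [mul_assoc, x0]; group
  rw [e j, e i, e (j + 1)]
  calc _ = a⁻¹ * (x a b (j + 1) * x a b (i + 1)) * a := by group
    _ = _ := by rw [h]; group

theorem ups {j : ℕ} (h : x a b (j + 1) * b = b * x a b (j + 2)) (i : ℕ) :
    x a b (j + i + 1) * x a b (i + 1) = x a b (i + 1) * x a b (j + i + 2) := by
  induction i with
  | zero => simpa [x] using h
  | succ i ih => exact up ih

theorem one (h : Rel a b) (j : ℕ) : x a b (j + 2) * b = b * x a b (j + 3) := by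
  induction j using Nat.strong_induction_on with
  | _ j ih =>
  obtain _ | _ | j := j
  · exact h.1
  · exact h.2
  have h1 := ups (ih 0 (by omega)) (j + 1)
  have h2 := ups (ih 0 (by omega)) (j + 2)
  have h3 := ih j (by omega)
  have h4 := ih (j + 1) (by omega)
  rw [show 0 + 1 + (j + 1) + 1 = j + 3 by omega, show 0 + 1 + (j + 1) + 2 = j + 4 by omega] at h1
  rw [show 0 + 1 + (j + 2) + 1 = j + 4 by omega, show 0 + 1 + (j + 2) + 2 = j + 5 by omega] at h2
  change x a b (j + 4) * b = b * x a b (j + 5)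
  change x a b (j + 3) * b = b * x a b (j + 4) at h4
  change _ * x a b (j + 2) = x a b (j + 2) * _ at h1
  change _ * x a b (j + 3) = x a b (j + 3) * _ at h2
  rw [eq_inv_mul_of_mul_eq h1.symm, eq_inv_mul_of_mul_eq h2.symm]
  calc _ = (x a b (j + 2))⁻¹ * x a b (j + 3) * (x a b (j + 2) * b) := by group
    _ = (x a b (j + 2))⁻¹ * (x a b (j + 3) * b) * x a b (j + 3) := by rw [h3]; group
    _ = (x a b (j + 2))⁻¹ * (b * x a b (j + 3)) * (x a b (j + 3))⁻¹ * x a b (j + 4) *
        x a b (j + 3) := by rw [h4]; group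
    _ = _ := by rw [← h3]; group

theorem r1 (h : Rel a b) {i j : ℕ} (hi : i < j) (g : G) :
    x a b j * (x a b i * g) = x a b i * (x a b (j + 1) * g) := by
  rw [← mul_assoc, ← mul_assoc]
  congr 1
  obtain ⟨k, rfl⟩ := Nat.exists_eq_add_of_lt hi
  obtain _ | i := i
  · simpa [x] using x0 (a := a) (b := b) k
  · convert ups (one h k) i using 3 <;> omega

theorem r2 (h : Rel a b) {i j : ℕ} (hi : i < j) (g : G) :
    (x a b j)⁻¹ * (x a b i * g) = x a b i * ((x a b (j + 1))⁻¹ * g) := by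
  rw [inv_mul_eq_iff_eq_mul, r1 h hi, mul_inv_cancel_left]

theorem r3 (h : Rel a b) {i j : ℕ} (hi : i < j) (g : G) :
    (x a b i)⁻¹ * (x a b j * g) = x a b (j + 1) * ((x a b i)⁻¹ * g) := by
  rw [inv_mul_eq_iff_eq_mul, ← r1 h hi, mul_inv_cancel_left]

theorem r4 (h : Rel a b) {i j : ℕ} (hi : i < j) (g : G) :
    (x a b i)⁻¹ * ((x a b j)⁻¹ * g) = (x a b (j + 1))⁻¹ * ((x a b i)⁻¹ * g) := by
  rw [inv_mul_eq_iff_eq_mul, ← r2 h hi, mul_inv_cancel_left]

theorem aux {u v : G} (h : ∀ g, u * (v⁻¹ * g) = g) : u = v := by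
  simpa [mul_inv_eq_one] using h 1

theorem copy (h : Rel a b) :
    Rel (x a b 1 * (x a b 2)⁻¹) (x a b 2 * x a b 2 * (x a b 3)⁻¹ * (x a b 2)⁻¹) := by
  generalize e : x a b = y
  constructor <;>
  · refine aux fun g => ?_
    simp only [x, pow_succ, pow_zero, one_mul, mul_inv_rev, inv_inv, mul_assoc]
    subst e
    simp [r1 h, r2 h, r3 h, r4 h]

theorem back (h : Rel a b)
    (k : Commute (x a b 1 * (x a b 2)⁻¹) (x a b 2 * x a b 2 * (x a b 3)⁻¹ * (x a b 2)⁻¹)) :
    Commute a b := by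
  have h1 : (x a b 1 * (x a b 2)⁻¹)⁻¹ * (x a b 2 * x a b 2 * (x a b 3)⁻¹ * (x a b 2)⁻¹) *
      (x a b 1 * (x a b 2)⁻¹) =
      x a b 2 * x a b 3 * x a b 3 * (x a b 4)⁻¹ * (x a b 3)⁻¹ * (x a b 2)⁻¹ :=
    aux fun g => by simp [mul_assoc, r1 h, r2 h, r3 h, r4 h]
  rw [mul_assoc _ _ (_ * _), ← k.eq, inv_mul_cancel_left] at h1
  have h2 : x a b 2 = x a b 3 * x a b 3 * (x a b 4)⁻¹ := by
    calc _ = (x a b 2)⁻¹ * (x a b 2 * x a b 2 * (x a b 3)⁻¹ * (x a b 2)⁻¹) * x a b 2 * x a b 3 := by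
          group
      _ = _ := by rw [h1]; group
  have h3 := r1 h (i := 2) (j := 3) (by omega) 1
  rw [h2] at h3
  have h4 : x a b 3 = x a b 4 := by
    calc _ = (x a b 3)⁻¹ * (x a b 3)⁻¹ * (x a b 3 * (x a b 3 * x a b 3 * (x a b 4)⁻¹ * 1)) *
        x a b 4 * (x a b 4)⁻¹ * x a b 4 := by group
      _ = _ := by rw [h3]; group
  simp only [x] at h4
  calc a * b = a ^ 3 * ((a ^ 2)⁻¹ * b * a ^ 2) * (a ^ 2)⁻¹ := by group
    _ = b * a := by rw [h4]; group
end

def q : QI := ⟨2, [x (.of 0) (.of 1) 2 * .of 1 * (.of 1 * x (.of 0) (.of 1) 3)⁻¹,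
  x (.of 0) (.of 1) 3 * .of 1 * (.of 1 * x (.of 0) (.of 1) 4)⁻¹], .of 0 * .of 1 * (.of 1 * .of 0)⁻¹⟩

theorem map_x {G H : Type} [Group G] [Group H] (f : G →* H) (a b : G) (n : ℕ) :
    f (x a b n) = x (f a) (f b) n := by
  cases n <;> simp [x]

theorem map_rel {G H : Type} [Group G] [Group H] (f : G →* H) (a b : G) (h : Rel a b) :
    Rel (f a) (f b) :=
  ⟨by simpa [map_x] using congrArg f h.1, by simpa [map_x] using congrArg f h.2⟩

theorem mod_iff (G : Type) [Group G] : Mod {q} G ↔ ∀ a b : G, Rel a b → Commute a b := by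
  simp only [Mod, Set.mem_singleton_iff, forall_eq, q, List.mem_cons, List.not_mem_nil, or_false,
    forall_eq_or_imp, map_mul, map_inv, map_x, FreeGroup.lift_apply_of, mul_inv_eq_one]
  exact ⟨fun h a b r => h ![a, b] r, fun h y r => h _ _ r⟩

theorem ext : ExtClosed {q} := by
  intro H _ N _ h1 h2
  rw [mod_iff] at *
  intro a b h
  have c := h2 _ _ (map_rel (QuotientGroup.mk' N) a b h)
  have e : ∀ n, QuotientGroup.mk' N (x a b (n + 1)) = QuotientGroup.mk' N b := fun n => by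
    rw [map_x, x, mul_assoc, ← (c.pow_left n).eq, inv_mul_cancel_left]
  have m : ∀ g, QuotientGroup.mk' N g = 1 → g ∈ N := fun g => (QuotientGroup.eq_one_iff g).1
  have r := copy h
  have m1 := m (x a b 1 * (x a b 2)⁻¹) (by rw [map_mul, map_inv, e, e, mul_inv_cancel])
  have m2 := m (x a b 2 * x a b 2 * (x a b 3)⁻¹ * (x a b 2)⁻¹)
    (by rw [map_mul, map_mul, map_mul, map_inv, map_inv, e, e]; group)
  refine back h ((h1 ⟨_, m1⟩ ⟨_, m2⟩ ?_).map N.subtype)
  exact ⟨N.subtype_injective (by rw [map_mul, map_mul, map_x, map_x]; exact r.1),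
    N.subtype_injective (by rw [map_mul, map_mul, map_x, map_x]; exact r.2)⟩

/-- Order automorphisms of `ℝ` fixing `(-∞, 0]`, right-affine with slopes `2ᵏ` at each point. -/
def PL : Subgroup (ℝ ≃o ℝ) where
  carrier := {f | (∀ t ≤ 0, f t = t) ∧
    ∀ p, ∃ (k : ℤ) (ε : ℝ), 0 < ε ∧ ∀ t, 0 ≤ t → t ≤ ε → f (p + t) = f p + 2 ^ k * t}
  one_mem' := ⟨fun _ _ => rfl, fun _ => ⟨0, 1, one_pos, fun _ _ _ => by simp⟩⟩
  mul_mem' := by
    rintro f g ⟨f0, hf⟩ ⟨g0, hg⟩
    refine ⟨fun t h => by simp [f0 t h, g0 t h], fun p => ?_⟩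
    obtain ⟨k, ε, h1, h2⟩ := hg p
    obtain ⟨l, δ, h3, h4⟩ := hf (g p)
    refine ⟨l + k, min ε (δ / 2 ^ k), by positivity, fun t a b => ?_⟩
    rw [le_min_iff, le_div_iff₀' (by positivity)] at b
    rw [RelIso.mul_apply, h2 t a b.1, h4 _ (by positivity) b.2, zpow_add₀ two_ne_zero, mul_assoc]
    rfl
  inv_mem' := by
    rintro f ⟨f0, hf⟩
    refine ⟨fun t h => f.symm_apply_eq.2 (f0 t h).symm, fun p => ?_⟩
    obtain ⟨k, ε, h1, h2⟩ := hf (f.symm p)
    refine ⟨-k, 2 ^ k * ε, by positivity, fun t a b => f.symm_apply_eq.2 ?_⟩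
    refine Eq.trans ?_ (h2 _ (by positivity) (by rwa [zpow_neg, inv_mul_le_iff₀ (by positivity)])).symm
    simp [zpow_ne_zero]

theorem li : LocInd PL := by
  rintro _ ⟨S, rfl⟩ hne
  let A := {r : ℝ | ∀ s ∈ S, ∀ t ≤ r, s.1 t = t}
  have h0 : (0 : ℝ) ∈ A := fun s _ => s.2.1
  have hb : BddAbove A := by
    by_contra hc
    refine hne ((Subgroup.closure_eq_bot_iff).2 fun s hs => ?_)
    ext t
    obtain ⟨r, hr, h⟩ := not_bddAbove_iff.1 hc t
    exact hr s hs t h.le
  have h1 : ∀ s ∈ S, ∀ t < sSup A, s.1 t = t := fun s hs t ht => by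
    obtain ⟨r, hr, h⟩ := exists_lt_of_lt_csSup ⟨0, h0⟩ ht
    exact hr s hs t h.le
  set p := sSup A
  have h2 : ∀ s ∈ S, s.1 p = p := fun s hs => by
    refine le_antisymm (s.1.le_symm_apply.1 (not_lt.1 fun h => ?_)) (not_lt.1 fun h => ?_)
    · exact h.ne ((h1 s hs _ h).symm.trans (s.1.apply_symm_apply p))
    · exact h.ne (s.1.injective (h1 s hs _ h))
  have h3 : ∀ g ∈ Subgroup.closure (S : Set PL), g.1 p = p := fun g hg => by
    induction hg using Subgroup.closure_induction with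
    | mem s hs => exact h2 s hs
    | one => rfl
    | mul a b _ _ ha hb => simp [ha, hb]
    | inv a _ ha => exact a.1.symm_apply_eq.2 ha.symm
  choose k ε he hk using fun g : PL => g.2.2 p
  let χ : Subgroup.closure (S : Set PL) →* Multiplicative ℤ :=
    MonoidHom.mk' (fun g => .ofAdd (k g)) fun f g => by
      have := he f
      have := he g
      have := he (f * g)
      let t := min (ε (f * g)) (min (ε g) (ε f / 2 ^ k g))
      have ht : 0 < t := by positivity
      have b := min_le_right (ε (f * g)) (min (ε g) (ε f / 2 ^ k g))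
      rw [le_min_iff, le_div_iff₀' (by positivity)] at b
      have e := hk (f * g) t ht.le (min_le_left _ _)
      simp only [Subgroup.coe_mul, RelIso.mul_apply] at e
      rw [hk g t ht.le b.1, h3 _ g.2, hk f _ (by positivity) b.2, add_right_inj, ← mul_assoc,
        mul_left_inj' ht.ne', ← zpow_add₀ two_ne_zero] at e
      exact congrArg _ (zpow_right_injective₀ two_pos (by norm_num) e).symm
  obtain ⟨a, ha⟩ := Int.subgroup_cyclic (Subgroup.toAddSubgroup' χ.range)
  have hd : ∀ n : ℤ, .ofAdd n ∈ χ.range ↔ a ∣ n := fun n => by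
    refine Iff.trans (show _ ↔ n ∈ Subgroup.toAddSubgroup' χ.range from Iff.rfl) ?_
    rw [ha, ← AddSubgroup.zmultiples_eq_closure, Int.mem_zmultiples_iff]
  have a0 : a ≠ 0 := by
    rintro rfl
    obtain ⟨δ, d0, hδ⟩ : ∃ δ > 0, ∀ s ∈ S, δ ≤ ε s := by
      rcases S.eq_empty_or_nonempty with rfl | hS
      · exact ⟨1, one_pos, by simp⟩
      · obtain ⟨s, -, hs⟩ := S.exists_min_image ε hS
        exact ⟨_, he s, hs⟩
    refine absurd (le_csSup hb (a := p + δ) fun s hs t ht => ?_) (not_le.2 (lt_add_of_pos_right p d0))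
    rcases lt_or_ge t p with h | h
    · exact h1 s hs t h
    · have := hk s (t - p) (by linarith) (by linarith [hδ s hs])
      rw [zero_dvd_iff.1 ((hd (k s)).1 ⟨⟨s, Subgroup.subset_closure hs⟩, rfl⟩), h2 s hs] at this
      simpa using this
  refine ⟨MonoidHom.mk' (fun g => .ofAdd ((χ g).toAdd / a)) fun f g => ?_, fun n => ?_⟩
  · rw [map_mul, toAdd_mul, Int.add_ediv_of_dvd_left ((hd (χ f).toAdd).1 ⟨f, rfl⟩), ofAdd_add]
  · obtain ⟨g, hg⟩ := (hd (a * n.toAdd)).2 (dvd_mul_right _ _)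
    exact ⟨g, by simp [hg, a0]⟩

noncomputable def X (i : ℕ) : PL :=
  ⟨StrictMono.orderIsoOfRightInverse (fun t => min t (max ((t + i) / 2) (t - 1)))
    (fun _ _ h => min_lt_min h (max_lt_max (by linarith) (by linarith)))
    (fun t => max t (min (2 * t - i) (t + 1))) fun t => by
      simp only [max_def, min_def]
      split_ifs <;> linarith, fun t h => by
      have : (0 : ℝ) ≤ i := i.cast_nonneg
      exact min_eq_left (le_max_of_le_left (by linarith)), fun p => by
    change ∃ (k : ℤ) (ε : ℝ), 0 < ε ∧ ∀ t, 0 ≤ t → t ≤ ε →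
      min (p + t) (max ((p + t + i) / 2) (p + t - 1)) = min p (max ((p + i) / 2) (p - 1)) + 2 ^ k * t
    rcases lt_or_ge p i with h | h
    · refine ⟨0, i - p, by linarith, fun t _ _ => ?_⟩
      simp only [max_def, min_def, zpow_zero]
      split_ifs <;> linarith
    rcases lt_or_ge p (i + 2) with h' | h'
    · refine ⟨-1, i + 2 - p, by linarith, fun t _ _ => ?_⟩
      simp only [max_def, min_def, zpow_neg_one]
      split_ifs <;> linarith
    · refine ⟨0, 1, one_pos, fun t _ _ => ?_⟩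
      simp only [max_def, min_def, zpow_zero]
      split_ifs <;> linarith⟩

theorem X_val (i : ℕ) (t : ℝ) : (X i).1 t = min t (max ((t + i) / 2) (t - 1)) := rfl

theorem X_rel {i j : ℕ} (h : i < j) : X j * X i = X i * X (j + 1) := by
  ext t
  have : (i : ℝ) + 1 ≤ j := by exact_mod_cast h
  simp only [Subgroup.coe_mul, RelIso.mul_apply, X_val, max_def, min_def, Nat.cast_succ]
  split_ifs <;> linarith

theorem x_X (n : ℕ) : x (X 0) (X 1) (n + 1) = X (n + 1) := by
  induction n with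
  | zero => simp [x]
  | succ n ih => rw [← mul_right_inj (X 0), ← x0, ih, X_rel n.succ_pos]

theorem result : ∃ (G : Type) (_ : Group G), LocInd G ∧ ¬ InQ G := by
  refine ⟨PL, _, li, fun h => ?_⟩
  have := (mod_iff _).1 (h {q} ((mod_iff _).2 fun a b _ => Commute.all a b) ext) (X 0) (X 1)
    ⟨by rw [x_X, x_X, X_rel (by omega)], by rw [x_X, x_X, X_rel (by omega)]⟩
  have := congrArg (fun g : PL => g.1 2) this.eq
  simp only [Subgroup.coe_mul, RelIso.mul_apply, X_val] at this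
  norm_num at this

end Pool.Agent.Results.MP_3b2c1c_al.NotEq
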